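import Mathlib
import Pool.Agent.E8helper61.DL.Defs

/-!
# A random map and a random orientation: the union bound
-/

set_option autoImplicit false

namespace Pool.Agent.E8helper5.DL

open Finset Classical Matrix Function

theorem card_comp {α β E : Type} [Fintype α] [Fintype β] [Fintype E]
    (g : α → β) (hg : Injective g) (P : (α → E) → Prop) :
    Nat.card {f : β → E // P (f ∘ g)} * Fintype.card E ^ Fintype.card α =
      Nat.card {v : α → E // P v} * Fintype.card E ^ Fintype.card β := by
  rw [← Fintype.card_fun, ← Fintype.card_fun, ← Nat.card_eq_fintype_card,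
    ← Nat.card_eq_fintype_card, ← Nat.card_prod, ← Nat.card_prod]
  refine Nat.card_congr
    { toFun := fun p => (⟨p.1.1 ∘ g, p.1.2⟩, Function.extend g p.2 p.1.1)
      invFun := fun q => (⟨Function.extend g q.1.1 q.2, by
        rw [Function.extend_comp hg]; exact q.1.2⟩, q.2 ∘ g)
      left_inv := ?_
      right_inv := ?_ }
  · rintro ⟨⟨f, hf⟩, u⟩
    refine Prod.ext (Subtype.ext ?_) ?_
    · funext b
      by_cases hb : ∃ a, g a = b
      · obtain ⟨a, rfl⟩ := hb
        simp [hg.extend_apply]
      · simp only
        rw [Function.extend_apply' _ _ _ hb, Function.extend_apply' _ _ _ hb]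
    · simp only
      rw [Function.extend_comp hg]
  · rintro ⟨⟨v, hv⟩, f⟩
    refine Prod.ext (Subtype.ext ?_) ?_
    · simp only
      rw [Function.extend_comp hg]
    · funext b
      by_cases hb : ∃ a, g a = b
      · obtain ⟨a, rfl⟩ := hb
        simp [hg.extend_apply]
      · simp only
        rw [Function.extend_apply' _ _ _ hb, Function.extend_apply' _ _ _ hb]

/-- The coordinate of an unordered pair. -/
def key {N : ℕ} (i j : Fin N) : Fin N × Fin N := if i < j then (i, j) else (j, i)

theorem key_comm {N : ℕ} (i j : Fin N) : key i j = key j i := by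
  unfold key
  rcases lt_trichotomy i j with h | h | h
  · simp [h, h.not_gt]
  · simp [h]
  · simp [h, h.not_gt]

theorem key_inj {N m : ℕ} (g : Fin m → Fin N) (hg : Injective g) :
    Injective (fun p : {p : Fin m × Fin m // p.1 < p.2} => key (g p.1.1) (g p.1.2)) := by
  rintro ⟨⟨a, b⟩, hab⟩ ⟨⟨c, d⟩, hcd⟩ h
  simp only at hab hcd h
  simp only [key] at h
  apply Subtype.ext
  split_ifs at h with h1 h2 h2
  · rw [Prod.mk.injEq] at h
    exact Prod.ext (hg h.1) (hg h.2)
  · rw [Prod.mk.injEq] at h
    have e1 := hg h.1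
    have e2 := hg h.2
    subst e1 e2
    exact absurd hab hcd.not_gt
  · rw [Prod.mk.injEq] at h
    have e1 := hg h.1
    have e2 := hg h.2
    subst e1 e2
    exact absurd hab hcd.not_gt
  · rw [Prod.mk.injEq] at h
    exact Prod.ext (hg h.2) (hg h.1)

theorem card_pairs (m : ℕ) :
    Fintype.card {p : Fin m × Fin m // p.1 < p.2} = m * (m - 1) / 2 := by
  have h1 : Fintype.card {p : Fin m × Fin m // p.1 < p.2} =
      ∑ b : Fin m, (b : ℕ) := by
    rw [Fintype.card_subtype]
    rw [Finset.card_filter, Fintype.sum_prod_type_right]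
    refine Finset.sum_congr rfl fun b _ => ?_
    rw [← Finset.card_filter]
    have : (Finset.univ.filter fun a : Fin m => a < b) = Finset.Iio b := by
      ext a; simp
    rw [this, Fin.card_Iio]
  rw [h1, Fin.sum_univ_eq_sum_range (fun i => i) m, Finset.sum_range_id]

theorem t_RND : Pool.Agent.E8helper61.DL.S_RND := by
  intro E _ orth hsym N m hcount hrefl
  -- the relation
  let val : Fin N → Fin N → Bool := fun i j => decide (i < j)
  let A : (Fin N → E) × (Fin N × Fin N → Bool) → Fin N → Fin N → Prop :=
    fun ω i j => i ≠ j ∧ orth (ω.1 i) (ω.1 j) ∧ ω.2 (key i j) = val i j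
  by_contra hcon
  have hval : ∀ i j : Fin N, i ≠ j → val j i = !val i j := by
    intro i j hij
    simp only [val]
    rcases lt_or_gt_of_ne hij with h | h
    · simp [h, h.not_gt]
    · simp [h, h.not_gt]
  have hbad : ∀ ω, ∃ g : Fin m → Fin N, ∀ a b, a < b → A ω (g a) (g b) := by
    intro ω
    by_contra hno
    apply hcon
    refine ⟨ω.1, A ω, ?_, ?_, hno⟩
    · rintro i j ⟨h1, _, h3⟩ ⟨_, _, h6⟩
      rw [key_comm j i, h3, hval i j h1] at h6
      cases hv : val i j <;> simp [hv] at h6
    · intro i j hij
      constructor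
      · rintro (h | h)
        · exact h.2.1
        · exact hsym _ _ h.2.1
      · intro h
        by_cases hw : ω.2 (key i j) = val i j
        · exact Or.inl ⟨hij, h, hw⟩
        · refine Or.inr ⟨hij.symm, hsym _ _ h, ?_⟩
          rw [key_comm j i, hval i j hij]
          cases hv : val i j <;> cases hu : ω.2 (key i j) <;> simp_all
  -- the bad events
  let T : ℕ := Fintype.card {v : Fin m → E // ∀ i j, orth (v i) (v j)}
  let B : (Fin m → Fin N) → Finset ((Fin N → E) × (Fin N × Fin N → Bool)) := fun g =>
    Finset.univ.filter fun ω => Injective g ∧ (∀ a b, orth (ω.1 (g a)) (ω.1 (g b))) ∧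
      ∀ a b, a < b → ω.2 (key (g a) (g b)) = val (g a) (g b)
  have hcover : (Finset.univ : Finset ((Fin N → E) × (Fin N × Fin N → Bool))) ⊆
      Finset.univ.biUnion B := by
    intro ω _
    obtain ⟨g, hg⟩ := hbad ω
    rw [Finset.mem_biUnion]
    refine ⟨g, Finset.mem_univ _, ?_⟩
    simp only [B, Finset.mem_filter, Finset.mem_univ, true_and]
    refine ⟨?_, ?_, fun a b hab => (hg a b hab).2.2⟩
    · intro a b hab
      by_contra hne
      rcases lt_or_gt_of_ne hne with h | h
      · exact (hg a b h).1 hab
      · exact (hg b a h).1 hab.symm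
    · intro a b
      rcases lt_trichotomy a b with h | h | h
      · exact (hg a b h).2.1
      · rw [h]; exact hrefl _
      · exact hsym _ _ (hg b a h).2.1
  have hcard : ∀ g, (B g).card * (Fintype.card E ^ m * 2 ^ (m * (m - 1) / 2)) ≤
      T * (Fintype.card E ^ N * 2 ^ (N * N)) := by
    intro g
    by_cases hg : Injective g
    · have h1 := card_comp g hg (fun v : Fin m → E => ∀ i j, orth (v i) (v j))
      have h2' := card_comp (E := Bool)
        (fun p : {p : Fin m × Fin m // p.1 < p.2} => key (g p.1.1) (g p.1.2)) (key_inj g hg)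
        (fun w => w = fun p => val (g p.1.1) (g p.1.2))
      simp only [Fintype.card_fin] at h1
      have hone : Nat.card {w : {p : Fin m × Fin m // p.1 < p.2} → Bool //
          w = fun p => val (g p.1.1) (g p.1.2)} = 1 := by
        rw [Nat.card_eq_one_iff_unique]
        exact ⟨⟨fun x y => Subtype.ext (x.2.trans y.2.symm)⟩, ⟨⟨_, rfl⟩⟩⟩
      have h2 : Nat.card {w : Fin N × Fin N → Bool //
            w ∘ (fun p : {p : Fin m × Fin m // p.1 < p.2} => key (g p.1.1) (g p.1.2)) =
              fun p => val (g p.1.1) (g p.1.2)} * 2 ^ (m * (m - 1) / 2) = 2 ^ (N * N) := by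
        rw [card_pairs, hone, Fintype.card_bool, Fintype.card_prod, Fintype.card_fin, one_mul]
          at h2'
        exact h2'
      have h3 : (B g).card = Nat.card {f : Fin N → E // ∀ i j, orth ((f ∘ g) i) ((f ∘ g) j)} *
          Nat.card {w : Fin N × Fin N → Bool //
            w ∘ (fun p : {p : Fin m × Fin m // p.1 < p.2} => key (g p.1.1) (g p.1.2)) =
              fun p => val (g p.1.1) (g p.1.2)} := by
        rw [Nat.card_eq_fintype_card, Nat.card_eq_fintype_card, Fintype.card_subtype,
          Fintype.card_subtype, ← Finset.card_product]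
        congr 1
        ext ω
        simp only [B, Finset.mem_filter, Finset.mem_univ, true_and, Finset.mem_product,
          Function.comp]
        constructor
        · rintro ⟨_, h4, h5⟩
          exact ⟨h4, funext fun p => h5 _ _ p.2⟩
        · rintro ⟨h4, h5⟩
          exact ⟨hg, h4, fun a b hab => congrFun h5 ⟨(a, b), hab⟩⟩
      rw [h3]
      refine le_of_eq ?_
      calc _ = (Nat.card {f : Fin N → E // ∀ i j, orth ((f ∘ g) i) ((f ∘ g) j)} *
            Fintype.card E ^ m) * (Nat.card {w : Fin N × Fin N → Bool //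
            w ∘ (fun p : {p : Fin m × Fin m // p.1 < p.2} => key (g p.1.1) (g p.1.2)) =
              fun p => val (g p.1.1) (g p.1.2)} * 2 ^ (m * (m - 1) / 2)) := by ring
        _ = _ := by
            rw [h1, h2]
            simp only [T, Nat.card_eq_fintype_card]
            ring
    · have : B g = ∅ := by
        rw [Finset.eq_empty_iff_forall_notMem]
        intro ω hω
        simp only [B, Finset.mem_filter] at hω
        exact hg hω.2.1
      rw [this]; simp
  have hm : m ≠ 0 := by
    rintro rfl
    have : Fintype.card {v : Fin 0 → E // ∀ i j, orth (v i) (v j)} = 1 := by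
      rw [Fintype.card_eq_one_iff]
      exact ⟨⟨Fin.elim0, fun i => i.elim0⟩, fun y => Subtype.ext (funext fun i => i.elim0)⟩
    rw [this] at hcount
    simp at hcount
  have hE : 0 < Fintype.card E := by
    rcases Nat.eq_zero_or_pos (Fintype.card E) with h | h
    · rw [h, zero_pow hm, zero_mul] at hcount
      exact absurd hcount (Nat.not_lt_zero _)
    · exact h
  have hΩ : Fintype.card ((Fin N → E) × (Fin N × Fin N → Bool)) =
      Fintype.card E ^ N * 2 ^ (N * N) := by
    simp
  have htot : Fintype.card ((Fin N → E) × (Fin N × Fin N → Bool)) *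
      (Fintype.card E ^ m * 2 ^ (m * (m - 1) / 2)) ≤
      N ^ m * (T * (Fintype.card E ^ N * 2 ^ (N * N))) := by
    calc _ ≤ (∑ g, (B g).card) * (Fintype.card E ^ m * 2 ^ (m * (m - 1) / 2)) := by
          refine Nat.mul_le_mul_right _ ?_
          exact (Finset.card_le_card hcover).trans Finset.card_biUnion_le
      _ = ∑ g, (B g).card * (Fintype.card E ^ m * 2 ^ (m * (m - 1) / 2)) := Finset.sum_mul _ _ _
      _ ≤ ∑ g : Fin m → Fin N, T * (Fintype.card E ^ N * 2 ^ (N * N)) :=
          Finset.sum_le_sum fun g _ => hcard g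
      _ = _ := by simp
  rw [hΩ] at htot
  have hpos : 0 < Fintype.card E ^ N * 2 ^ (N * N) := by positivity
  have h5 : (Fintype.card E ^ N * 2 ^ (N * N)) * (Fintype.card E ^ m * 2 ^ (m * (m - 1) / 2)) ≤
      (Fintype.card E ^ N * 2 ^ (N * N)) * (N ^ m * T) := by
    calc _ ≤ _ := htot
      _ = _ := by ring
  have h6 := Nat.le_of_mul_le_mul_left h5 hpos
  exact absurd hcount (not_lt.mpr h6)

end Pool.Agent.E8helper5.DL
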